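import Pool.Agent.H.MP_0f3f77_al.CWPi
import Pool.Agent.H.MP_0f3f77_al.Main
import Pool.Agent.H.MP_0f3f77_al.TrB

/-!
# Socle and co-socle filtrations of a highest derivative

There is an irreducible Casselman-Wallach representation of `GL_4(R)` of depth two whose highest
derivative has socle filtration and co-socle filtration of length five which do not match, and
whose socle layers have lengths which are not symmetric.
-/

noncomputable section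

namespace Pool.Agent.Results.MP_0f3f77_al.SocleCounterexample

open DerGL

theorem result : ∃ (V : TopModuleCat.{0} ℂ) (π : GL (Fin 4) ℝ → V → V),
    IsCW π ∧ IsIrred Set.univ π ∧ ∀ ν : ℝ, ν ≠ 0 →
      (∃ (E : TopModuleCat.{0} ℂ) (ε : GL (Fin 1) ℝ → E → E), IsDer ν 0 3 π ε ∧ Subsingleton E) ∧
      (∃ (E : TopModuleCat.{0} ℂ) (ε : GL (Fin 2) ℝ → E → E), IsDer ν 1 2 π ε ∧ Subsingleton E) ∧
      ∃ (D : TopModuleCat.{0} ℂ) (δ : GL (Fin 3) ℝ → D → D), IsDer ν 2 1 π δ ∧ Nontrivial D ∧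
        ∃ F G : ℕ → Submodule ℂ D, SocleFilt (Mir 2) δ 5 F ∧ CosocleFilt (Mir 2) δ 5 G ∧
          F 2 ≠ G 3 ∧ HasLen (Mir 2) δ (F 1) (F 2) 2 ∧ HasLen (Mir 2) δ (F 3) (F 4) 1 := by
  refine ⟨TopModuleCat.of ℂ SoCo.piR.V, fun g v => SoCo.piR.act g v,
    SoCo.isCW_tr _ SoCo.isCW_piR, SoCo.isIrred_tr _ SoCo.isIrred_piR, fun ν hν => ?_⟩
  obtain ⟨h1, h2, h3, F, G, hF, hG, hne, hl1, hl2⟩ := SoCo.main ν hν
  have hT : ∀ g, g ∈ Mir 2 ↔ g ∈ SoCo.Mir 2 := fun g => SoCo.mem_mir g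
  refine ⟨⟨TopModuleCat.of ℂ (SoCo.Der ν 0 3 SoCo.piR).V, _, SoCo.isDer_Der ν 0 3 _, h3⟩,
    ⟨TopModuleCat.of ℂ (SoCo.Der ν 1 2 SoCo.piR).V, _, SoCo.isDer_Der ν 1 2 _, h2⟩,
    TopModuleCat.of ℂ (SoCo.Der ν 2 1 SoCo.piR).V, (SoCo.Der ν 2 1 SoCo.piR).ext,
    SoCo.isDer_Der ν 2 1 _, h1, F, G, ?_, ?_, hne, ?_, ?_⟩
  · exact (SoCo.socleFilt_tr hT (SoCo.agr_ext _) 5 F).2 hF
  · exact (SoCo.cosocleFilt_tr hT (SoCo.agr_ext _) 5 G).2 hG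
  · exact (SoCo.hasLen_tr hT (SoCo.agr_ext _) _ _ 2).2 hl1
  · exact (SoCo.hasLen_tr hT (SoCo.agr_ext _) _ _ 1).2 hl2

end Pool.Agent.Results.MP_0f3f77_al.SocleCounterexample
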